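import Pool.Agent.Helper3.KV.SRC0

/-! Packet KV-G SRC (MP_66be51_an): the source part of the right functional. -/

open MeasureTheory Set Filter Topology

namespace Pool.Agent.Helper3.KV

open Pool.Agent.Helper33.KV Pool.Agent.Helper41.KV Pool.Agent.Helper48.KV

lemma memLp_of_decay {f : ℝ → ℝ} (hf : Continuous f) {C a : ℝ} (ha : 0 < a)
    (h : ∀ y, |f y| ≤ C * Real.exp (-(a * |y|))) : MemLp f 2 := by
  rw [memLp_two_iff_integrable_sq hf.aestronglyMeasurable]
  have hi := (Pool.Agent.Helper71.KV.integrable_exp_abs (2 * a) (by positivity)).const_mul (C ^ 2)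
  refine hi.mono' (hf.pow 2).aestronglyMeasurable (Eventually.of_forall fun y => ?_)
  rw [Real.norm_of_nonneg (by positivity), ← sq_abs]
  calc |f y| ^ 2 ≤ (C * Real.exp (-(a * |y|))) ^ 2 := by
        have := h y
        gcongr
    _ = C ^ 2 * Real.exp (-(2 * a * |y|)) := by
        rw [mul_pow, ← Real.exp_nat_mul]
        congr 2
        push_cast
        ring

lemma Q4_le (hQF : S_QF) (y : ℝ) : Q y ^ 4 ≤ 3 := by
  rw [hQF.2.2.2.1 y, div_le_iff₀ (by have := Real.cosh_pos (2 * y); positivity)]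
  have h1 := Real.one_le_cosh (2 * y)
  nlinarith

/-- a profile term -/
lemma piece (hWT0 : S_WT0) (hALG : S_ALG) (hWGN : S_WGN) (hQF : S_QF) {T : ℝ → ℝ} {c CT : ℝ}
    (hTs : ContDiff ℝ (⊤ : ℕ∞) T) (hCT : 0 ≤ CT)
    (hT : ∀ y, |T y| ≤ CT * Real.exp (-(3 / 4 * |y|)))
    (hT1 : ∀ y, |deriv T y| ≤ CT * Real.exp (-(3 / 4 * |y|)))
    (hL : ∀ y, Lop T y = c * Q y) {CV : ℝ} (hCV : 1 ≤ CV) :
    ∃ C : ℝ, 0 < C ∧ ∀ K : ℝ, 8 ≤ K → ∀ ρ : ℝ, 0 < ρ → ρ ≤ 1 → ∀ v ε τ : ℝ → ℝ, Continuous v →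
      HI ε → ContDiff ℝ (⊤ : ℕ∞) τ →
      (∀ y, |v y| ≤ 2 * CV) →
      (∀ y, |v y - Q y| ≤ CV * ρ * Real.exp (|y| / 8)) →
      (∀ y, |τ y - T y| ≤ CV * ρ * Real.exp (-(|y| / 2))) →
      (∀ y, |deriv τ y - deriv T y| ≤ CV * ρ * Real.exp (-(|y| / 2))) →
      (∫ y, ε y ^ 2) ≤ 1 →
      Integrable (fun y => 2 * wt K ρ y * (τ y * ε y + deriv τ y * deriv ε y
        - τ y * nG (v y) (ε y))) ∧
      |∫ y, 2 * wt K ρ y * (τ y * ε y + deriv τ y * deriv ε y - τ y * nG (v y) (ε y))| ≤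
        C * (|∫ y, ε y * Q y| + ρ * Real.sqrt (Hn K ρ ε) + Hn K ρ ε) := by
  have hq3 : ∀ y, Q y ^ 4 ≤ 3 := Q4_le hQF
  obtain ⟨hQs, hQpos, -, -, -, -, hQd, -⟩ := hQF
  obtain ⟨C0, hC0⟩ := hQd 0
  have hQc : Continuous Q := hQs.continuous
  have hTc : Continuous T := hTs.continuous
  have hTc1 : Continuous (deriv T) := hTs.continuous_deriv (by simp)
  have hTs1 : ContDiff ℝ (⊤ : ℕ∞) (deriv T) := (contDiff_infty_iff_deriv.1 hTs).2
  have hTc2 : Continuous (deriv (deriv T)) := hTs1.continuous_deriv (by simp)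
  have mQ : MemLp Q 2 := memLp_of_decay hQc one_pos (C := C0) fun y => by
    have := hC0 y
    simpa using this
  have mT : MemLp T 2 := memLp_of_decay hTc (by norm_num) hT
  have mT1 : MemLp (deriv T) 2 := memLp_of_decay hTc1 (by norm_num) hT1
  set J := Real.sqrt (2 * ∫ y : ℝ, Real.exp (-(|y| / 4)) ^ 2) with hJ
  have hJ0 : 0 ≤ J := Real.sqrt_nonneg _
  set C1 := 32 * CT + 32 * CV + 10 * (CT + CV) * (2 * CV + 2) ^ 3 * CV with hC1
  set C2 := 80 * (CT + CV) * (8 * CV ^ 3 + 1) with hC2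
  have hC10 : 0 ≤ C1 := by positivity
  have hC20 : 0 ≤ C2 := by positivity
  refine ⟨2 * |c| + C1 * J + 9 * C2 + 1, by positivity, ?_⟩
  intro K hK ρ hρ hρ1 v ε τ hvc hε hτs hv hvq hτ hτ1 hM
  have W := wd hWT0 hWGN hK hρ hε hM
  obtain ⟨c0, c1, cw, i0, i1, w0, w1, ih, ie, be, i6, b6⟩ := W
  have m0 : MemLp ε 2 := by simpa using hε.2 0
  have m1 : MemLp (deriv ε) 2 := by simpa [iteratedDeriv_one] using hε.2 1
  obtain ⟨-, -, hw, hwr, -⟩ := hWT0 K ρ (by linarith) hρ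
  -- the static part
  have iTe : Integrable (fun y => T y * ε y) := mT.integrable_mul m0
  have iT1e1 : Integrable (fun y => deriv T y * deriv ε y) := mT1.integrable_mul m1
  have iT1e : Integrable (fun y => deriv T y * ε y) := mT1.integrable_mul m0
  have iQe : Integrable (fun y => Q y * ε y) := mQ.integrable_mul m0
  have iQTe : Integrable (fun y => Q y ^ 4 * (T y * ε y)) := by
    refine (iTe.norm.const_mul 3).mono' ((hQc.pow 4).mul (hTc.mul c0)).aestronglyMeasurable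
      (Eventually.of_forall fun y => ?_)
    rw [norm_mul, Real.norm_of_nonneg (by positivity : 0 ≤ Q y ^ 4)]
    exact mul_le_mul_of_nonneg_right (hq3 y) (norm_nonneg _)
  have hT2 : ∀ y, deriv (deriv T) y = T y - 5 * Q y ^ 4 * T y - c * Q y := by
    intro y
    have := hL y
    unfold Lop at this
    linarith
  have hT2e : ∀ y, deriv (deriv T) y * ε y =
      T y * ε y - 5 * (Q y ^ 4 * (T y * ε y)) - c * (Q y * ε y) := by
    intro y
    rw [hT2 y]
    ring
  have iT2e : Integrable (fun y => deriv (deriv T) y * ε y) := by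
    refine ((iTe.sub (iQTe.const_mul 5)).sub (iQe.const_mul c)).congr
      (Eventually.of_forall fun y => ?_)
    simp only [Pi.sub_apply]
    rw [hT2e y]
  have hdε : Differentiable ℝ ε := hε.1.differentiable (by simp)
  have hdT : Differentiable ℝ (deriv T) := hTs1.differentiable (by simp)
  have hparts : (∫ y, deriv T y * deriv ε y) = - ∫ y, deriv (deriv T) y * ε y :=
    integral_mul_deriv_eq_deriv_mul_of_integrable (u := deriv T) (v := ε)
      (u' := deriv (deriv T)) (v' := deriv ε)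
      (fun y _ => (hdT y).hasDerivAt) (fun y _ => (hdε y).hasDerivAt) iT1e1 iT2e iT1e
  have iF0 : Integrable (fun y => 2 * (T y * ε y + deriv T y * deriv ε y
      - 5 * Q y ^ 4 * T y * ε y)) := by
    refine (((iTe.add iT1e1).sub (iQTe.const_mul 5)).const_mul 2).congr
      (Eventually.of_forall fun y => ?_)
    simp only [Pi.sub_apply, Pi.add_apply]
    ring
  have e0 : (∫ y, 2 * (T y * ε y + deriv T y * deriv ε y - 5 * Q y ^ 4 * T y * ε y)) =
      2 * c * ∫ y, ε y * Q y := by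
    have h1 : (∫ y, 2 * (T y * ε y + deriv T y * deriv ε y - 5 * Q y ^ 4 * T y * ε y)) =
        2 * ((∫ y, T y * ε y) + (∫ y, deriv T y * deriv ε y) - 5 * ∫ y, Q y ^ 4 * (T y * ε y)) := by
      have iA : Integrable (fun y => T y * ε y + deriv T y * deriv ε y) := iTe.add iT1e1
      rw [← integral_const_mul 5, ← integral_add iTe iT1e1,
        ← integral_sub iA (iQTe.const_mul 5), ← integral_const_mul]
      refine integral_congr_ae (Eventually.of_forall fun y => ?_)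
      simp only
      ring
    have h2 : (∫ y, deriv (deriv T) y * ε y) =
        (∫ y, T y * ε y) - 5 * (∫ y, Q y ^ 4 * (T y * ε y)) - c * ∫ y, Q y * ε y := by
      have iA : Integrable (fun y => T y * ε y - 5 * (Q y ^ 4 * (T y * ε y))) :=
        iTe.sub (iQTe.const_mul 5)
      rw [← integral_const_mul 5, ← integral_const_mul c, ← integral_sub iTe (iQTe.const_mul 5),
        ← integral_sub iA (iQe.const_mul c)]
      refine integral_congr_ae (Eventually.of_forall fun y => ?_)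
      simp only
      rw [hT2e y]
    have h3 : (∫ y, ε y * Q y) = ∫ y, Q y * ε y :=
      integral_congr_ae (Eventually.of_forall fun y => mul_comm _ _)
    rw [h1, hparts, h2, h3]
    ring
  -- the pointwise estimate
  set F : ℝ → ℝ := fun y => 2 * wt K ρ y * (τ y * ε y + deriv τ y * deriv ε y
        - τ y * nG (v y) (ε y)) with hF
  set F0 : ℝ → ℝ := fun y => 2 * (T y * ε y + deriv T y * deriv ε y
      - 5 * Q y ^ 4 * T y * ε y) with hF0
  have hpt : ∀ y, |F y - F0 y| ≤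
      C1 * (ρ * (wt K ρ y * (Real.exp (-(|y| / 4)) * (|ε y| + |deriv ε y|)))) +
      C2 * (wt K ρ y * (ε y ^ 2 + ε y ^ 6)) := by
    intro y
    have hφ : 1 - wt K ρ y ≤ ρ * Real.exp (|y| / 8) * wt K ρ y := by
      rw [hwr y]
      have h1 : -(y / K) ≤ |y| / 8 := by
        have h2 : -(y / K) ≤ |y| / K := by
          rw [← neg_div]
          exact div_le_div_of_nonneg_right (neg_le_abs y) (by linarith)
        exact h2.trans (div_le_div_of_nonneg_left (abs_nonneg y) (by norm_num) hK)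
      have h3 : Real.exp (-(y / K)) ≤ Real.exp (|y| / 8) := Real.exp_le_exp.2 h1
      have := w0 y
      gcongr
    exact ptw hALG (abs_nonneg y) (w0 y) hφ (w1 y) hρ.le hρ1 hCT hCV (hq3 y) (hT y) (hT1 y)
      (hτ y) (hτ1 y) (hv y) (hvq y)
  have iR : Integrable (fun y => C1 * (ρ * (wt K ρ y * (Real.exp (-(|y| / 4)) *
      (|ε y| + |deriv ε y|)))) + C2 * (wt K ρ y * (ε y ^ 2 + ε y ^ 6))) :=
    ((ie.const_mul ρ).const_mul C1).add (i6.const_mul C2)
  have hτc : Continuous τ := hτs.continuous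
  have hτc1 : Continuous (deriv τ) := hτs.continuous_deriv (by simp)
  have hFc : Continuous F := by
    have hnG : Continuous (fun y => nG (v y) (ε y)) := by
      unfold nG
      fun_prop
    exact (continuous_const.mul cw).mul (((hτc.mul c0).add (hτc1.mul c1)).sub (hτc.mul hnG))
  have hF0c : Continuous F0 := by
    exact continuous_const.mul (((hTc.mul c0).add (hTc1.mul c1)).sub
      (((continuous_const.mul (hQc.pow 4)).mul hTc).mul c0))
  have iD : Integrable (fun y => F y - F0 y) :=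
    iR.mono' (hFc.sub hF0c).aestronglyMeasurable (Eventually.of_forall hpt)
  have iF : Integrable F := by
    refine (iD.add iF0).congr (Eventually.of_forall fun y => ?_)
    simp only [Pi.add_apply]
    ring
  refine ⟨iF, ?_⟩
  have h1 : (∫ y, F y) = (∫ y, F y - F0 y) + ∫ y, F0 y := by
    rw [integral_sub iF iF0]
    ring
  have h2 : |∫ y, F y - F0 y| ≤ C1 * (ρ * (Real.sqrt (Hn K ρ ε) * J)) + C2 * (9 * Hn K ρ ε) := by
    have h3 : |∫ y, F y - F0 y| ≤ ∫ y, (C1 * (ρ * (wt K ρ y * (Real.exp (-(|y| / 4)) *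
      (|ε y| + |deriv ε y|)))) + C2 * (wt K ρ y * (ε y ^ 2 + ε y ^ 6))) := by
      have := norm_integral_le_of_norm_le (f := fun y => F y - F0 y) iR
        (Eventually.of_forall fun y => by rw [Real.norm_eq_abs]; exact hpt y)
      rwa [Real.norm_eq_abs] at this
    refine h3.trans ?_
    rw [integral_add ((ie.const_mul ρ).const_mul C1) (i6.const_mul C2), integral_const_mul,
      integral_const_mul, integral_const_mul]
    gcongr
  have hH0 : 0 ≤ Hn K ρ ε := Hn_nonneg w0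
  have hh0 : 0 ≤ Real.sqrt (Hn K ρ ε) := Real.sqrt_nonneg _
  rw [h1]
  refine (abs_add_le _ _).trans ?_
  have h4 : |∫ y, F0 y| = 2 * |c| * |∫ y, ε y * Q y| := by
    rw [e0, abs_mul, abs_mul, abs_two]
  rw [h4]
  set X := |∫ y, ε y * Q y|
  have hX : 0 ≤ X := abs_nonneg _
  set h := Real.sqrt (Hn K ρ ε)
  have a1 : 0 ≤ |c| := abs_nonneg c
  have a2 : 0 ≤ C1 * J := mul_nonneg hC10 hJ0
  have a3 : 0 ≤ ρ * h := by positivity
  have e : (2 * |c| + C1 * J + 9 * C2 + 1) * (X + ρ * h + Hn K ρ ε) =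
      (C1 * (ρ * (h * J)) + C2 * (9 * Hn K ρ ε) + 2 * |c| * X) +
      (2 * |c| * (ρ * h + Hn K ρ ε) + C1 * J * (X + Hn K ρ ε) + 9 * C2 * (X + ρ * h) +
        (X + ρ * h + Hn K ρ ε)) := by ring
  have e' : 0 ≤ (2 * |c| * (ρ * h + Hn K ρ ε) + C1 * J * (X + Hn K ρ ε) + 9 * C2 * (X + ρ * h) +
        (X + ρ * h + Hn K ρ ε)) := by positivity
  linarith

/-- the `S0` term -/
lemma s0_piece (hWT0 : S_WT0) (hALG : S_ALG) (hWGN : S_WGN) {CV : ℝ} (hCV : 1 ≤ CV) {K : ℝ}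
    (hK : 8 ≤ K) {ρ : ℝ} (hρ : 0 < ρ) {v ε S0 : ℝ → ℝ} (hvc : Continuous v)
    (hε : HI ε) (hS : ContDiff ℝ (⊤ : ℕ∞) S0) (hv : ∀ y, |v y| ≤ 2 * CV)
    (hSρ : ∀ y, |S0 y| ≤ ρ)
    (hSi : Integrable (fun y => wt K ρ y * (S0 y ^ 2 + deriv S0 y ^ 2))) {s0 : ℝ} (hs0 : 0 ≤ s0)
    (hSs : (∫ y, wt K ρ y * (S0 y ^ 2 + deriv S0 y ^ 2)) ≤ s0 ^ 2)
    (hM : (∫ y, ε y ^ 2) ≤ 1) :
    Integrable (fun y => 2 * wt K ρ y * (S0 y * ε y + deriv S0 y * deriv ε y
        - S0 y * nG (v y) (ε y))) ∧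
      |∫ y, 2 * wt K ρ y * (S0 y * ε y + deriv S0 y * deriv ε y - S0 y * nG (v y) (ε y))| ≤
        (2 + 1280 * CV ^ 4) * (s0 * Real.sqrt (Hn K ρ ε)) + 720 * (ρ * Hn K ρ ε) := by
  have W := wd hWT0 hWGN hK hρ hε hM
  obtain ⟨c0, c1, cw, i0, i1, w0, w1, ih, ie, be, i6, b6⟩ := W
  have hSc : Continuous S0 := hS.continuous
  have hSc1 : Continuous (deriv S0) := hS.continuous_deriv (by simp)
  have hptw : ∀ a : ℝ, 0 < a → ∀ y, wt K ρ y * (|S0 y * ε y| + |deriv S0 y * deriv ε y|) ≤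
      (a * (wt K ρ y * (S0 y ^ 2 + deriv S0 y ^ 2)) +
        (wt K ρ y * (deriv ε y ^ 2 + ε y ^ 2)) / a) / 2 := by
    intro a ha y
    have b1 := amgm_pt (S0 y) (ε y) a ha
    have b2 := amgm_pt (deriv S0 y) (deriv ε y) a ha
    have h1 := mul_le_mul_of_nonneg_left (add_le_add b1 b2) (w0 y)
    refine h1.trans (le_of_eq ?_)
    field_simp
    ring
  have iP : Integrable (fun y => wt K ρ y * (|S0 y * ε y| + |deriv S0 y * deriv ε y|)) := by
    refine Integrable.mono' (g := fun y => (1 * (wt K ρ y * (S0 y ^ 2 + deriv S0 y ^ 2)) +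
        (wt K ρ y * (deriv ε y ^ 2 + ε y ^ 2)) / 1) / 2) ?_ ?_ ?_
    · exact ((hSi.const_mul 1).add (ih.div_const 1)).div_const 2
    · exact (cw.mul ((hSc.mul c0).abs.add (hSc1.mul c1).abs)).aestronglyMeasurable
    · refine Eventually.of_forall fun y => ?_
      rw [Real.norm_of_nonneg (mul_nonneg (w0 y) (by positivity))]
      exact hptw 1 one_pos y
  have bP : (∫ y, wt K ρ y * (|S0 y * ε y| + |deriv S0 y * deriv ε y|)) ≤
      s0 * Real.sqrt (Hn K ρ ε) := by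
    refine amgm_opt hs0 (Real.sqrt_nonneg _) fun a ha => ?_
    rw [Real.sq_sqrt (Hn_nonneg w0)]
    have h1 := integral_mono iP (((hSi.const_mul a).add (ih.div_const a)).div_const 2) (hptw a ha)
    refine h1.trans ?_
    have h2 : (∫ y, ((fun y => (a * (wt K ρ y * (S0 y ^ 2 + deriv S0 y ^ 2))) ) +
        fun y => (wt K ρ y * (deriv ε y ^ 2 + ε y ^ 2)) / a) y) =
        a * (∫ y, wt K ρ y * (S0 y ^ 2 + deriv S0 y ^ 2)) + Hn K ρ ε / a := by
      rw [integral_add' (hSi.const_mul a) (ih.div_const a), integral_const_mul, integral_div]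
      rfl
    rw [integral_div, h2]
    gcongr
  have hpt : ∀ y, |2 * wt K ρ y * (S0 y * ε y + deriv S0 y * deriv ε y
        - S0 y * nG (v y) (ε y))| ≤
      (2 + 1280 * CV ^ 4) * (wt K ρ y * (|S0 y * ε y| + |deriv S0 y * deriv ε y|)) +
      80 * ρ * (wt K ρ y * (ε y ^ 2 + ε y ^ 6)) := by
    intro y
    have a1 := (hALG (v y) (ε y)).2.1
    have a2 : v y ^ 4 ≤ 16 * CV ^ 4 := by
      have : v y ^ 4 = |v y| ^ 4 := by rw [Even.pow_abs (by decide)]
      rw [this]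
      calc |v y| ^ 4 ≤ (2 * CV) ^ 4 := by
            have := hv y
            gcongr
        _ = _ := by ring
    have a3 := pow5_le (ε y)
    have a4 : |S0 y * nG (v y) (ε y)| ≤
        640 * CV ^ 4 * |S0 y * ε y| + 40 * ρ * (ε y ^ 2 + ε y ^ 6) := by
      rw [abs_mul]
      calc |S0 y| * |nG (v y) (ε y)| ≤ |S0 y| * (40 * (v y ^ 4 * |ε y| + |ε y| ^ 5)) := by gcongr
        _ ≤ |S0 y| * (40 * (16 * CV ^ 4 * |ε y| + (ε y ^ 2 + ε y ^ 6))) := by gcongr
        _ = 640 * CV ^ 4 * |S0 y * ε y| + 40 * |S0 y| * (ε y ^ 2 + ε y ^ 6) := by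
            rw [abs_mul]; ring
        _ ≤ 640 * CV ^ 4 * |S0 y * ε y| + 40 * ρ * (ε y ^ 2 + ε y ^ 6) := by
            have := hSρ y
            gcongr
    have a5 : |S0 y * ε y + deriv S0 y * deriv ε y - S0 y * nG (v y) (ε y)| ≤
        |S0 y * ε y| + |deriv S0 y * deriv ε y| +
        (640 * CV ^ 4 * |S0 y * ε y| + 40 * ρ * (ε y ^ 2 + ε y ^ 6)) :=
      abs3 le_rfl le_rfl a4
    rw [abs_mul, abs_mul, abs_two, abs_of_nonneg (w0 y)]
    have hw := w0 y
    calc 2 * wt K ρ y * |S0 y * ε y + deriv S0 y * deriv ε y - S0 y * nG (v y) (ε y)|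
        ≤ 2 * wt K ρ y * (|S0 y * ε y| + |deriv S0 y * deriv ε y| +
        (640 * CV ^ 4 * |S0 y * ε y| + 40 * ρ * (ε y ^ 2 + ε y ^ 6))) := by gcongr
      _ ≤ _ := by
        have b1 : 0 ≤ 1280 * CV ^ 4 * (wt K ρ y * |deriv S0 y * deriv ε y|) := by positivity
        nlinarith
  have iR : Integrable (fun y => (2 + 1280 * CV ^ 4) * (wt K ρ y * (|S0 y * ε y| +
      |deriv S0 y * deriv ε y|)) + 80 * ρ * (wt K ρ y * (ε y ^ 2 + ε y ^ 6))) :=
    (iP.const_mul _).add (i6.const_mul _)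
  have hFc : Continuous (fun y => 2 * wt K ρ y * (S0 y * ε y + deriv S0 y * deriv ε y
        - S0 y * nG (v y) (ε y))) := by
    have hnG : Continuous (fun y => nG (v y) (ε y)) := by
      unfold nG
      fun_prop
    exact (continuous_const.mul cw).mul (((hSc.mul c0).add (hSc1.mul c1)).sub (hSc.mul hnG))
  refine ⟨iR.mono' hFc.aestronglyMeasurable (Eventually.of_forall hpt), ?_⟩
  have hn := norm_integral_le_of_norm_le (f := fun y => 2 * wt K ρ y * (S0 y * ε y +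
        deriv S0 y * deriv ε y - S0 y * nG (v y) (ε y))) iR
        (Eventually.of_forall fun y => by rw [Real.norm_eq_abs]; exact hpt y)
  rw [Real.norm_eq_abs] at hn
  refine hn.trans ?_
  rw [integral_add (iP.const_mul _) (i6.const_mul _), integral_const_mul, integral_const_mul]
  have e1 : (2 + 1280 * CV ^ 4) * (∫ y, wt K ρ y * (|S0 y * ε y| + |deriv S0 y * deriv ε y|)) ≤
      (2 + 1280 * CV ^ 4) * (s0 * Real.sqrt (Hn K ρ ε)) := by gcongr
  have e2 : 80 * ρ * (∫ y, wt K ρ y * (ε y ^ 2 + ε y ^ 6)) ≤ 80 * ρ * (9 * Hn K ρ ε) := by gcongr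
  linarith

lemma x_exp_le {x : ℝ} : x * Real.exp (-x) ≤ 4 * Real.exp (-(3 / 4 * x)) := by
  have h1 : x / 4 + 1 ≤ Real.exp (x / 4) := Real.add_one_le_exp _
  have h2 : Real.exp (-(3 / 4 * x)) = Real.exp (x / 4) * Real.exp (-x) := by
    rw [← Real.exp_add]
    congr 1
    ring
  rw [h2]
  have h3 : 0 < Real.exp (-x) := Real.exp_pos _
  nlinarith

lemma exp_le34 {x : ℝ} (hx : 0 ≤ x) : Real.exp (-x) ≤ Real.exp (-(3 / 4 * x)) :=
  Real.exp_le_exp.2 (by linarith)

theorem src (h1 : S_WT0) (h2 : S_ALG) (h3 : S_WGN) (h4 : S_QF)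
    (h5 : ∀ y, Lop (Lam Q) y = -2 * Q y) : Pool.Agent.Helper48.KV.S_SRC := by
  intro K hK CV hCV
  have hQF := h4
  obtain ⟨hQs, hQpos, -, -, -, hQ2, hQd, -⟩ := h4
  obtain ⟨C0, hC0⟩ := hQd 0
  obtain ⟨C1, hC1⟩ := hQd 1
  obtain ⟨C2, hC2⟩ := hQd 2
  have hC0' : ∀ y, |Q y| ≤ C0 * Real.exp (-|y|) := fun y => by simpa using hC0 y
  have hC1' : ∀ y, |deriv Q y| ≤ C1 * Real.exp (-|y|) := fun y => by
    simpa [iteratedDeriv_one] using hC1 y
  have hC2' : ∀ y, |deriv (deriv Q) y| ≤ C2 * Real.exp (-|y|) := fun y => by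
    have := hC2 y
    rwa [show iteratedDeriv 2 Q = deriv (deriv Q) by
      rw [iteratedDeriv_succ, iteratedDeriv_one]] at this
  have n0 : 0 ≤ C0 := by
    have := (abs_nonneg _).trans (hC0' 0); simpa using this
  have n1 : 0 ≤ C1 := by
    have := (abs_nonneg _).trans (hC1' 0); simpa using this
  have n2 : 0 ≤ C2 := by
    have := (abs_nonneg _).trans (hC2' 0); simpa using this
  have hQs1 : ContDiff ℝ (⊤ : ℕ∞) (deriv Q) := (contDiff_infty_iff_deriv.1 hQs).2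
  have hQs2 : ContDiff ℝ (⊤ : ℕ∞) (deriv (deriv Q)) := (contDiff_infty_iff_deriv.1 hQs1).2
  have dQ : Differentiable ℝ Q := hQs.differentiable (by simp)
  have dQ1 : Differentiable ℝ (deriv Q) := hQs1.differentiable (by simp)
  -- Lam Q
  have hLs : ContDiff ℝ (⊤ : ℕ∞) (Lam Q) := by
    have : Lam Q = fun y => Q y / 2 + y * deriv Q y := rfl
    rw [this]
    exact (hQs.div_const 2).add (contDiff_id.mul hQs1)
  have hLd : ∀ y, deriv (Lam Q) y = 3 / 2 * deriv Q y + y * deriv (deriv Q) y := by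
    intro y
    have a1 : HasDerivAt (Lam Q) (deriv Q y / 2 + (1 * deriv Q y + y * deriv (deriv Q) y)) y :=
      ((dQ y).hasDerivAt.div_const 2).add ((hasDerivAt_id y).mul (dQ1 y).hasDerivAt)
    rw [a1.deriv]
    ring
  have key : ∀ (y a b A B : ℝ), 0 ≤ A → 0 ≤ B → |a| ≤ A * Real.exp (-|y|) →
      |b| ≤ B * Real.exp (-|y|) →
      |a + y * b| ≤ (A + 4 * B) * Real.exp (-(3 / 4 * |y|)) := by
    intro y a b A B hA hB ha hb
    have x1 := exp_le34 (abs_nonneg y)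
    have x2 := x_exp_le (x := |y|)
    have x3 : |y * b| ≤ B * (|y| * Real.exp (-|y|)) := by
      rw [abs_mul]
      calc |y| * |b| ≤ |y| * (B * Real.exp (-|y|)) := by gcongr
        _ = _ := by ring
    have x4 : B * (|y| * Real.exp (-|y|)) ≤ B * (4 * Real.exp (-(3 / 4 * |y|))) := by gcongr
    have x5 : A * Real.exp (-|y|) ≤ A * Real.exp (-(3 / 4 * |y|)) := by gcongr
    have x6 := abs_add_le a (y * b)
    linarith
  have hL0 : ∀ y, |Lam Q y| ≤ (C0 + 2 * C1 + 4 * (C1 + C2)) * Real.exp (-(3 / 4 * |y|)) := by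
    intro y
    have hq : |Q y / 2| ≤ C0 * Real.exp (-|y|) := by
      rw [abs_div, abs_two]
      have := hC0' y
      have := abs_nonneg (Q y)
      linarith
    have := key y (Q y / 2) (deriv Q y) C0 C1 n0 n1 hq (hC1' y)
    refine this.trans ?_
    apply mul_le_mul_of_nonneg_right _ (Real.exp_pos _).le
    linarith
  have hL1 : ∀ y, |deriv (Lam Q) y| ≤ (C0 + 2 * C1 + 4 * (C1 + C2)) * Real.exp (-(3 / 4 * |y|)) := by
    intro y
    rw [hLd y]
    have hq : |3 / 2 * deriv Q y| ≤ (2 * C1) * Real.exp (-|y|) := by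
      rw [abs_mul, abs_of_pos (by norm_num)]
      have := hC1' y
      have := abs_nonneg (deriv Q y)
      linarith
    have := key y (3 / 2 * deriv Q y) (deriv (deriv Q) y) (2 * C1) C2 (by linarith) n2 hq (hC2' y)
    refine this.trans ?_
    apply mul_le_mul_of_nonneg_right _ (Real.exp_pos _).le
    linarith
  -- deriv Q
  have hD0 : ∀ y, |deriv Q y| ≤ (C1 + C2) * Real.exp (-(3 / 4 * |y|)) := by
    intro y
    have x1 := exp_le34 (abs_nonneg y)
    calc |deriv Q y| ≤ C1 * Real.exp (-|y|) := hC1' y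
      _ ≤ (C1 + C2) * Real.exp (-(3 / 4 * |y|)) := by gcongr; linarith
  have hD1 : ∀ y, |deriv (deriv Q) y| ≤ (C1 + C2) * Real.exp (-(3 / 4 * |y|)) := by
    intro y
    have x1 := exp_le34 (abs_nonneg y)
    calc |deriv (deriv Q) y| ≤ C2 * Real.exp (-|y|) := hC2' y
      _ ≤ (C1 + C2) * Real.exp (-(3 / 4 * |y|)) := by gcongr; linarith
  have hLQ' : ∀ y, Lop (deriv Q) y = 0 * Q y := by
    intro y
    unfold Lop
    have e1 : deriv (deriv Q) = fun y => Q y - Q y ^ 5 := funext hQ2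
    have e2 : deriv (deriv (deriv Q)) y = deriv Q y - 5 * Q y ^ 4 * deriv Q y := by
      rw [e1]
      have a1 : HasDerivAt (fun y => Q y - Q y ^ 5) (deriv Q y - (5 : ℕ) * Q y ^ 4 * deriv Q y) y :=
        (dQ y).hasDerivAt.sub ((dQ y).hasDerivAt.pow 5)
      rw [a1.deriv]
      norm_num
    rw [e2]
    ring
  obtain ⟨Ca, hCa, pa⟩ := piece h1 h2 h3 hQF hLs (by positivity) hL0 hL1 h5 hCV
  obtain ⟨Cb, hCb, pb⟩ := piece h1 h2 h3 hQF hQs1 (by positivity) hD0 hD1 hLQ' hCV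
  refine ⟨Ca + Cb + (2 + 1280 * CV ^ 4) + 720, by positivity, ?_⟩
  intro ρ hρ hρ1 v ε τ θ S0 S A B s0 hvc hε hτs hθs hS0s hv hvq hτ hτ1 hθ hθ1 hSρ hSi hs0 hSs hS hM
  have hv2 : ∀ y, |v y| ≤ 2 * CV := by
    intro y
    refine (hv y).trans ?_
    have x1 : Real.exp (-(|y| / 2)) ≤ 1 := Real.exp_le_one_iff.2 (by have := abs_nonneg y; linarith)
    have x2 : Real.sqrt ρ ≤ 1 := Real.sqrt_le_one.2 hρ1
    nlinarith
  obtain ⟨ia, ba⟩ := pa K hK ρ hρ hρ1 v ε τ hvc hε hτs hv2 hvq hτ hτ1 hM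
  obtain ⟨ib, bb⟩ := pb K hK ρ hρ hρ1 v ε θ hvc hε hθs hv2 hvq hθ hθ1 hM
  obtain ⟨ic, bc⟩ := s0_piece h1 h2 h3 hCV hK hρ hvc hε hS0s hv2 hSρ hSi hs0 hSs hM
  have dS : ∀ y, deriv S y = A * deriv τ y + B * deriv θ y + deriv S0 y := by
    intro y
    have : S = fun y => A * τ y + B * θ y + S0 y := funext hS
    rw [this]
    exact (((((hτs.differentiable (by simp)) y).hasDerivAt.const_mul A).add
      (((hθs.differentiable (by simp)) y).hasDerivAt.const_mul B)).add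
      (((hS0s.differentiable (by simp)) y).hasDerivAt)).deriv
  have e : ∀ y, srcInt K ρ v ε S y =
      A * (2 * wt K ρ y * (τ y * ε y + deriv τ y * deriv ε y - τ y * nG (v y) (ε y))) +
      B * (2 * wt K ρ y * (θ y * ε y + deriv θ y * deriv ε y - θ y * nG (v y) (ε y))) +
      2 * wt K ρ y * (S0 y * ε y + deriv S0 y * deriv ε y - S0 y * nG (v y) (ε y)) := by
    intro y
    unfold srcInt
    rw [hS y, dS y]
    ring
  have e' : srcInt K ρ v ε S = fun y =>
      A * (2 * wt K ρ y * (τ y * ε y + deriv τ y * deriv ε y - τ y * nG (v y) (ε y))) +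
      B * (2 * wt K ρ y * (θ y * ε y + deriv θ y * deriv ε y - θ y * nG (v y) (ε y))) +
      2 * wt K ρ y * (S0 y * ε y + deriv S0 y * deriv ε y - S0 y * nG (v y) (ε y)) := funext e
  have iab : Integrable (fun y =>
      A * (2 * wt K ρ y * (τ y * ε y + deriv τ y * deriv ε y - τ y * nG (v y) (ε y))) +
      B * (2 * wt K ρ y * (θ y * ε y + deriv θ y * deriv ε y - θ y * nG (v y) (ε y)))) :=
    (ia.const_mul A).add (ib.const_mul B)
  rw [e']
  refine ⟨iab.add ic, ?_⟩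
  simp only
  rw [integral_add iab ic, integral_add (ia.const_mul A)
    (ib.const_mul B), integral_const_mul, integral_const_mul]
  set Ia := ∫ y, 2 * wt K ρ y * (τ y * ε y + deriv τ y * deriv ε y - τ y * nG (v y) (ε y))
  set Ib := ∫ y, 2 * wt K ρ y * (θ y * ε y + deriv θ y * deriv ε y - θ y * nG (v y) (ε y))
  set Ic := ∫ y, 2 * wt K ρ y * (S0 y * ε y + deriv S0 y * deriv ε y - S0 y * nG (v y) (ε y))
  have hH0 : 0 ≤ Hn K ρ ε := Hn_nonneg fun y => ((h1 K ρ (by linarith) hρ).2.2.1 y).1.le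
  set H := Hn K ρ ε
  set h := Real.sqrt H
  have hh0 : 0 ≤ h := Real.sqrt_nonneg _
  set X := |∫ y, ε y * Q y|
  have hX : 0 ≤ X := abs_nonneg _
  set Y := X + ρ * h + H with hY
  have hY0 : 0 ≤ Y := by positivity
  have t1 : |A * Ia| ≤ |A| * (Ca * Y) := by rw [abs_mul]; gcongr
  have t2 : |B * Ib| ≤ |B| * (Cb * Y) := by rw [abs_mul]; gcongr
  have t3 := (abs_add_le (A * Ia + B * Ib) Ic)
  have t4 := (abs_add_le (A * Ia) (B * Ib))
  have nA := abs_nonneg A
  have nB := abs_nonneg B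
  have e2 : (Ca + Cb + (2 + 1280 * CV ^ 4) + 720) * ((|A| + |B|) * Y + s0 * h + ρ * H) =
      |A| * (Ca * Y) + |B| * (Cb * Y) + ((2 + 1280 * CV ^ 4) * (s0 * h) + 720 * (ρ * H)) +
      ((Cb + (2 + 1280 * CV ^ 4) + 720) * (|A| * Y) + (Ca + (2 + 1280 * CV ^ 4) + 720) * (|B| * Y) +
        (Ca + Cb + 720) * (s0 * h) + (Ca + Cb + (2 + 1280 * CV ^ 4)) * (ρ * H)) := by ring
  have e3 : 0 ≤ ((Cb + (2 + 1280 * CV ^ 4) + 720) * (|A| * Y) + (Ca + (2 + 1280 * CV ^ 4) + 720) * (|B| * Y) +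
        (Ca + Cb + 720) * (s0 * h) + (Ca + Cb + (2 + 1280 * CV ^ 4)) * (ρ * H)) := by positivity
  linarith

end Pool.Agent.Helper3.KV
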