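import Pool.Agent.Helper48.KV.GoalsG1
import Pool.Agent.Helper26.KV.HInfAlg
import Pool.Agent.Helper71.KV.F_WTL

/-! Packet KV-G SRC (MP_66be51_an): the source part of the right functional (preparations). -/

open MeasureTheory Set Filter Topology

namespace Pool.Agent.Helper3.KV

open Pool.Agent.Helper33.KV Pool.Agent.Helper41.KV Pool.Agent.Helper48.KV

/-- optimisation of the arithmetic-geometric mean inequality -/
lemma amgm_opt {I x y : ℝ} (hx : 0 ≤ x) (hy : 0 ≤ y)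
    (h : ∀ a : ℝ, 0 < a → I ≤ (a * x ^ 2 + y ^ 2 / a) / 2) : I ≤ x * y := by
  rcases hx.eq_or_lt with rfl | hx
  · by_contra hI
    push Not at hI
    simp only [zero_mul] at hI ⊢
    have h1 := h ((y ^ 2 + 1) / I) (by positivity)
    have h2 : y ^ 2 / ((y ^ 2 + 1) / I) = y ^ 2 / (y ^ 2 + 1) * I := by
      field_simp
    rw [h2] at h1
    have h3 : y ^ 2 / (y ^ 2 + 1) ≤ 1 := by
      rw [div_le_one (by positivity)]; linarith
    nlinarith
  · rcases hy.eq_or_lt with rfl | hy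
    · by_contra hI
      push Not at hI
      simp only [mul_zero] at hI ⊢
      have h1 := h (I / (x ^ 2 + 1)) (by positivity)
      have h2 : I / (x ^ 2 + 1) * x ^ 2 = x ^ 2 / (x ^ 2 + 1) * I := by
        field_simp
      rw [h2] at h1
      have h3 : x ^ 2 / (x ^ 2 + 1) ≤ 1 := by
        rw [div_le_one (by positivity)]; linarith
      have h4 : (0 : ℝ) ^ 2 / (I / (x ^ 2 + 1)) = 0 := by simp
      rw [h4] at h1
      nlinarith
    · have h1 := h (y / x) (by positivity)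
      have h2 : (y / x * x ^ 2 + y ^ 2 / (y / x)) / 2 = x * y := by
        field_simp
        ring
      linarith

/-- the elementary inequality `|a b| ≤ (k a^2 + b^2/k)/2`. -/
lemma amgm_pt (a b k : ℝ) (hk : 0 < k) : |a * b| ≤ (k * a ^ 2 + b ^ 2 / k) / 2 := by
  have h1 : k * a ^ 2 + b ^ 2 / k - 2 * |a * b| = (k * |a| - |b|) ^ 2 / k := by
    rw [abs_mul, ← sq_abs a, ← sq_abs b]
    field_simp
    ring
  have h2 : 0 ≤ (k * |a| - |b|) ^ 2 / k := by positivity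
  linarith

/-- pointwise decomposition of a profile term -/
lemma ptw_alg (φ e e1 T T1 τ τ1 v q : ℝ) :
    2 * φ * (τ * e + τ1 * e1 - τ * nG v e) - 2 * (T * e + T1 * e1 - 5 * q ^ 4 * T * e) =
      -2 * (1 - φ) * (T * e + T1 * e1 - 5 * q ^ 4 * T * e)
      + 2 * φ * ((τ - T) * e + (τ1 - T1) * e1 - 5 * q ^ 4 * (τ - T) * e)
      - 10 * φ * τ * (v ^ 4 - q ^ 4) * e - 2 * φ * τ * nG2 v e := by
  unfold nG nG2
  ring

lemma abs3 {a b c A B C : ℝ} (ha : |a| ≤ A) (hb : |b| ≤ B) (hc : |c| ≤ C) : |a + b - c| ≤ A + B + C := by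
  have := abs_le.1 ha; have := abs_le.1 hb; have := abs_le.1 hc
  rw [abs_le]; constructor <;> linarith

/-- bound of a linear expression -/
lemma lin_bd {T T1 q e e1 X : ℝ} (hT : |T| ≤ X) (hT1 : |T1| ≤ X) (hq : 0 ≤ q ^ 4) (hq3 : q ^ 4 ≤ 3) :
    |T * e + T1 * e1 - 5 * q ^ 4 * T * e| ≤ 16 * X * (|e| + |e1|) := by
  have hX : 0 ≤ X := (abs_nonneg T).trans hT
  have h1 : |T * e| ≤ X * |e| := by rw [abs_mul]; exact mul_le_mul_of_nonneg_right hT (abs_nonneg _)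
  have h2 : |T1 * e1| ≤ X * |e1| := by rw [abs_mul]; exact mul_le_mul_of_nonneg_right hT1 (abs_nonneg _)
  have h3 : |5 * q ^ 4 * T * e| ≤ 15 * (X * |e|) := by
    have : 5 * q ^ 4 * T * e = (5 * q ^ 4) * (T * e) := by ring
    rw [this, abs_mul, abs_of_nonneg (by linarith)]
    exact mul_le_mul (by linarith) h1 (abs_nonneg _) (by norm_num)
  have h4 := abs3 h1 h2 h3
  have h5 : 0 ≤ X * |e1| := by positivity
  nlinarith

lemma pow4_bd {v q CV d : ℝ} (hCV : 1 ≤ CV) (hv : |v| ≤ 2 * CV) (hq : |q| ≤ 2) (hd : |v - q| ≤ d) :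
    |v ^ 4 - q ^ 4| ≤ (2 * CV + 2) ^ 3 * d := by
  have h1 : v ^ 4 - q ^ 4 = ((v + q) * (v ^ 2 + q ^ 2)) * (v - q) := by ring
  have hd0 : 0 ≤ d := (abs_nonneg _).trans hd
  have h2 : |v + q| ≤ 2 * CV + 2 := (abs_add_le _ _).trans (by linarith)
  have h3 : |v ^ 2 + q ^ 2| ≤ (2 * CV + 2) ^ 2 := by
    rw [abs_of_nonneg (by positivity), ← sq_abs v, ← sq_abs q]
    nlinarith [abs_nonneg v, abs_nonneg q]
  rw [h1, abs_mul, abs_mul]
  have h4 : |v + q| * |v ^ 2 + q ^ 2| ≤ (2 * CV + 2) ^ 3 := by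
    calc |v + q| * |v ^ 2 + q ^ 2| ≤ (2 * CV + 2) * (2 * CV + 2) ^ 2 :=
          mul_le_mul h2 h3 (abs_nonneg _) (by linarith)
      _ = (2 * CV + 2) ^ 3 := by ring
  exact mul_le_mul h4 hd (abs_nonneg _) (by positivity)

lemma pow5_le (e : ℝ) : |e| ^ 5 ≤ e ^ 2 + e ^ 6 := by
  have h0 := abs_nonneg e
  have h2 : e ^ 2 = |e| ^ 2 := (sq_abs e).symm
  have h6 : e ^ 6 = |e| ^ 6 := by rw [Even.pow_abs (by decide)]
  rw [h2, h6]
  rcases le_total |e| 1 with h | h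
  · have : |e| ^ 5 ≤ |e| ^ 2 := pow_le_pow_of_le_one h0 h (by norm_num)
    have : 0 ≤ |e| ^ 6 := by positivity
    linarith
  · have : |e| ^ 5 ≤ |e| ^ 6 := pow_le_pow_right₀ h (by norm_num)
    have : 0 ≤ |e| ^ 2 := by positivity
    linarith

/-- the pointwise estimate of a profile term; `x = |y|`. -/
lemma ptw (hALG : S_ALG) {φ ρ x CT CV e e1 T T1 τ τ1 v q : ℝ} (hx : 0 ≤ x) (hφ0 : 0 ≤ φ)
    (hφ : 1 - φ ≤ ρ * Real.exp (x / 8) * φ) (hφ1 : φ ≤ 1)
    (hρ : 0 ≤ ρ) (hρ1 : ρ ≤ 1) (hCT : 0 ≤ CT) (hCV : 1 ≤ CV) (hq3 : q ^ 4 ≤ 3)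
    (hT : |T| ≤ CT * Real.exp (-(3 / 4 * x))) (hT1 : |T1| ≤ CT * Real.exp (-(3 / 4 * x)))
    (hτ : |τ - T| ≤ CV * ρ * Real.exp (-(x / 2))) (hτ1 : |τ1 - T1| ≤ CV * ρ * Real.exp (-(x / 2)))
    (hv : |v| ≤ 2 * CV) (hvq : |v - q| ≤ CV * ρ * Real.exp (x / 8)) :
    |2 * φ * (τ * e + τ1 * e1 - τ * nG v e) - 2 * (T * e + T1 * e1 - 5 * q ^ 4 * T * e)| ≤
      (32 * CT + 32 * CV + 10 * (CT + CV) * (2 * CV + 2) ^ 3 * CV) *
        (ρ * (φ * (Real.exp (-(x / 4)) * (|e| + |e1|)))) +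
      80 * (CT + CV) * (8 * CV ^ 3 + 1) * (φ * (e ^ 2 + e ^ 6)) := by
  set E := Real.exp (-(x / 4)) with hE
  have hE0 : 0 < E := Real.exp_pos _
  have he0 := abs_nonneg e
  have he1 := abs_nonneg e1
  have hq0 : 0 ≤ q ^ 4 := by positivity
  -- exponentials
  have x1 : Real.exp (-(3 / 4 * x)) ≤ Real.exp (-(x / 2)) := Real.exp_le_exp.2 (by linarith)
  have x2 : Real.exp (-(x / 2)) ≤ E := Real.exp_le_exp.2 (by linarith)
  have x3 : Real.exp (x / 8) * Real.exp (-(3 / 4 * x)) ≤ E := by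
    rw [← Real.exp_add]; exact Real.exp_le_exp.2 (by linarith)
  have x4 : Real.exp (-(x / 2)) * Real.exp (x / 8) ≤ E := by
    rw [← Real.exp_add]; exact Real.exp_le_exp.2 (by linarith)
  -- first term
  have t1 : |-2 * (1 - φ) * (T * e + T1 * e1 - 5 * q ^ 4 * T * e)| ≤
      32 * CT * (ρ * (φ * (E * (|e| + |e1|)))) := by
    have a1 := lin_bd (e := e) (e1 := e1) hT hT1 hq0 hq3
    rw [abs_mul, abs_mul, abs_of_nonneg (by linarith : 0 ≤ 1 - φ), abs_neg, abs_two]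
    calc 2 * (1 - φ) * |T * e + T1 * e1 - 5 * q ^ 4 * T * e|
        ≤ 2 * (ρ * Real.exp (x / 8) * φ) * (16 * (CT * Real.exp (-(3 / 4 * x))) * (|e| + |e1|)) := by
          apply mul_le_mul _ a1 (abs_nonneg _) (by positivity)
          linarith
      _ = 32 * CT * (ρ * (φ * ((Real.exp (x / 8) * Real.exp (-(3 / 4 * x))) * (|e| + |e1|)))) := by ring
      _ ≤ 32 * CT * (ρ * (φ * (E * (|e| + |e1|)))) := by gcongr
  -- second term
  have t2 : |2 * φ * ((τ - T) * e + (τ1 - T1) * e1 - 5 * q ^ 4 * (τ - T) * e)| ≤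
      32 * CV * (ρ * (φ * (E * (|e| + |e1|)))) := by
    have a1 := lin_bd (e := e) (e1 := e1) hτ hτ1 hq0 hq3
    rw [abs_mul, abs_mul, abs_of_nonneg hφ0, abs_two]
    calc 2 * φ * |(τ - T) * e + (τ1 - T1) * e1 - 5 * q ^ 4 * (τ - T) * e|
        ≤ 2 * φ * (16 * (CV * ρ * Real.exp (-(x / 2))) * (|e| + |e1|)) := by gcongr
      _ = 32 * CV * (ρ * (φ * (Real.exp (-(x / 2)) * (|e| + |e1|)))) := by ring
      _ ≤ 32 * CV * (ρ * (φ * (E * (|e| + |e1|)))) := by gcongr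
  have hτb : |τ| ≤ (CT + CV) * Real.exp (-(x / 2)) := by
    have a1 : |τ| ≤ |T| + |τ - T| := by
      have : τ = T + (τ - T) := by ring
      calc |τ| = |T + (τ - T)| := by rw [← this]
        _ ≤ _ := abs_add_le _ _
    have a2 : CT * Real.exp (-(3 / 4 * x)) ≤ CT * Real.exp (-(x / 2)) := by gcongr
    have a3 : CV * ρ * Real.exp (-(x / 2)) ≤ CV * 1 * Real.exp (-(x / 2)) := by gcongr
    linarith
  have hτc : |τ| ≤ CT + CV := by
    have : Real.exp (-(x / 2)) ≤ 1 := Real.exp_le_one_iff.2 (by linarith)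
    calc |τ| ≤ (CT + CV) * Real.exp (-(x / 2)) := hτb
      _ ≤ (CT + CV) * 1 := by gcongr
      _ = _ := by ring
  have hq2 : |q| ≤ 2 := by
    by_contra hcon
    push Not at hcon
    have : (2 : ℝ) ^ 4 < |q| ^ 4 := by gcongr
    rw [Even.pow_abs (by decide)] at this
    linarith
  -- third term
  have t3 : |10 * φ * τ * (v ^ 4 - q ^ 4) * e| ≤
      10 * (CT + CV) * (2 * CV + 2) ^ 3 * CV * (ρ * (φ * (E * (|e| + |e1|)))) := by
    have a1 := pow4_bd hCV hv hq2 hvq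
    rw [abs_mul, abs_mul, abs_mul, abs_mul, abs_of_nonneg hφ0, abs_of_pos (by norm_num : (0 : ℝ) < 10)]
    calc 10 * φ * |τ| * |v ^ 4 - q ^ 4| * |e|
        ≤ 10 * φ * ((CT + CV) * Real.exp (-(x / 2))) *
          ((2 * CV + 2) ^ 3 * (CV * ρ * Real.exp (x / 8))) * |e| := by gcongr
      _ = 10 * (CT + CV) * (2 * CV + 2) ^ 3 * CV *
          (ρ * (φ * ((Real.exp (-(x / 2)) * Real.exp (x / 8)) * |e|))) := by ring
      _ ≤ 10 * (CT + CV) * (2 * CV + 2) ^ 3 * CV * (ρ * (φ * (E * (|e| + |e1|)))) := by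
          gcongr
          linarith
  -- fourth term
  have t4 : |2 * φ * τ * nG2 v e| ≤ 80 * (CT + CV) * (8 * CV ^ 3 + 1) * (φ * (e ^ 2 + e ^ 6)) := by
    have a1 := (hALG v e).2.2.2.1
    have a2 : |v| ^ 3 ≤ 8 * CV ^ 3 := by
      calc |v| ^ 3 ≤ (2 * CV) ^ 3 := by gcongr
        _ = _ := by ring
    have a3 := pow5_le e
    have a4 : |v| ^ 3 * e ^ 2 + |e| ^ 5 ≤ (8 * CV ^ 3 + 1) * (e ^ 2 + e ^ 6) := by
      have b1 : |v| ^ 3 * e ^ 2 ≤ 8 * CV ^ 3 * e ^ 2 := by gcongr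
      have b2 : 0 ≤ 8 * CV ^ 3 * e ^ 6 := by positivity
      nlinarith
    rw [abs_mul, abs_mul, abs_mul, abs_of_nonneg hφ0, abs_two]
    calc 2 * φ * |τ| * |nG2 v e| ≤ 2 * φ * (CT + CV) * (40 * ((8 * CV ^ 3 + 1) * (e ^ 2 + e ^ 6))) := by
          gcongr
          linarith
      _ = _ := by ring
  rw [ptw_alg φ e e1 T T1 τ τ1 v q]
  have := abs_le.1 t1; have := abs_le.1 t2; have := abs_le.1 t3; have := abs_le.1 t4
  rw [abs_le]
  constructor <;> nlinarith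

/-- weighted quantities -/
structure Wd (K ρ : ℝ) (ε : ℝ → ℝ) (J : ℝ) : Prop where
  c0 : Continuous ε
  c1 : Continuous (deriv ε)
  cw : Continuous (wt K ρ)
  i0 : Integrable (fun y => ε y ^ 2)
  i1 : Integrable (fun y => deriv ε y ^ 2)
  w0 : ∀ y, 0 ≤ wt K ρ y
  w1 : ∀ y, wt K ρ y ≤ 1
  ih : Integrable (fun y => wt K ρ y * (deriv ε y ^ 2 + ε y ^ 2))
  ie : Integrable (fun y => wt K ρ y * (Real.exp (-(|y| / 4)) * (|ε y| + |deriv ε y|)))
  be : (∫ y, wt K ρ y * (Real.exp (-(|y| / 4)) * (|ε y| + |deriv ε y|))) ≤ Real.sqrt (Hn K ρ ε) * J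
  i6 : Integrable (fun y => wt K ρ y * (ε y ^ 2 + ε y ^ 6))
  b6 : (∫ y, wt K ρ y * (ε y ^ 2 + ε y ^ 6)) ≤ 9 * Hn K ρ ε

lemma exp4_int : Integrable (fun y : ℝ => Real.exp (-(|y| / 4)) ^ 2) := by
  have := Pool.Agent.Helper71.KV.integrable_exp_abs (1 / 2) (by norm_num)
  refine this.congr (Eventually.of_forall fun y => ?_)
  simp only
  rw [← Real.exp_nat_mul]
  congr 1
  push_cast
  ring

lemma Hn_nonneg {K ρ : ℝ} {ε : ℝ → ℝ} (h : ∀ y, 0 ≤ wt K ρ y) : 0 ≤ Hn K ρ ε := by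
  unfold Hn
  exact integral_nonneg fun y => mul_nonneg (h y) (by positivity)

lemma wd (hWT0 : S_WT0) (hWGN : S_WGN) {K ρ : ℝ} (hK : 8 ≤ K) (hρ : 0 < ρ) {ε : ℝ → ℝ}
    (hε : HI ε) (hM : (∫ y, ε y ^ 2) ≤ 1) :
    Wd K ρ ε (Real.sqrt (2 * ∫ y : ℝ, Real.exp (-(|y| / 4)) ^ 2)) := by
  obtain ⟨hwc, -, hw, -, hwd, -, -, hph, -⟩ := hWT0 K ρ (by linarith) hρ
  have hc0 : Continuous ε := hε.1.continuous
  have hc1 : Continuous (deriv ε) := hε.1.continuous_deriv (by simp)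
  have hcw : Continuous (wt K ρ) := hwc.continuous
  have m0 : MemLp ε 2 := by simpa using hε.2 0
  have m1 : MemLp (deriv ε) 2 := by simpa [iteratedDeriv_one] using hε.2 1
  have m2 : MemLp (deriv (deriv ε)) 2 := by
    have := hε.2 2
    rwa [show iteratedDeriv 2 ε = deriv (deriv ε) by
      rw [iteratedDeriv_succ, iteratedDeriv_one]] at this
  have i0 := m0.integrable_sq
  have i1 := m1.integrable_sq
  have w0 : ∀ y, 0 ≤ wt K ρ y := fun y => (hw y).1.le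
  have w1 : ∀ y, wt K ρ y ≤ 1 := fun y => (hw y).2.le
  have hsum : Integrable (fun y => deriv ε y ^ 2 + ε y ^ 2) := i1.add i0
  have ih : Integrable (fun y => wt K ρ y * (deriv ε y ^ 2 + ε y ^ 2)) := by
    refine hsum.mono' ((hcw.mul ((hc1.pow 2).add (hc0.pow 2))).aestronglyMeasurable)
      (Eventually.of_forall fun y => ?_)
    have hp : 0 ≤ deriv ε y ^ 2 + ε y ^ 2 := by positivity
    rw [Real.norm_of_nonneg (mul_nonneg (w0 y) hp)]
    exact mul_le_of_le_one_left hp (w1 y)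
  have hcE : Continuous (fun y : ℝ => Real.exp (-(|y| / 4))) := by fun_prop
  have hptw : ∀ a : ℝ, 0 < a → ∀ y, wt K ρ y * (Real.exp (-(|y| / 4)) * (|ε y| + |deriv ε y|)) ≤
      (a * (wt K ρ y * (deriv ε y ^ 2 + ε y ^ 2)) + (2 * Real.exp (-(|y| / 4)) ^ 2) / a) / 2 := by
    intro a ha y
    set E := Real.exp (-(|y| / 4)) with hE
    have hE0 : 0 < E := Real.exp_pos _
    have b1 := amgm_pt |ε y| E a ha
    have b2 := amgm_pt |deriv ε y| E a ha
    rw [sq_abs, abs_of_nonneg (by positivity)] at b1 b2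
    have h1 := mul_le_mul_of_nonneg_left (add_le_add b1 b2) (w0 y)
    have h2 : wt K ρ y * (E ^ 2 / a) ≤ E ^ 2 / a := mul_le_of_le_one_left (by positivity) (w1 y)
    have h3 : wt K ρ y * (E * (|ε y| + |deriv ε y|)) = wt K ρ y * (|ε y| * E + |deriv ε y| * E) := by
      ring
    have h4 : (2 * E ^ 2) / a = 2 * (E ^ 2 / a) := by ring
    rw [h3, h4]
    nlinarith
  have ie : Integrable (fun y => wt K ρ y * (Real.exp (-(|y| / 4)) * (|ε y| + |deriv ε y|))) := by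
    refine Integrable.mono' (g := fun y =>
      (1 * (wt K ρ y * (deriv ε y ^ 2 + ε y ^ 2)) + (2 * Real.exp (-(|y| / 4)) ^ 2) / 1) / 2) ?_ ?_ ?_
    · exact ((ih.const_mul 1).add ((exp4_int.const_mul 2).div_const 1)).div_const 2
    · exact (hcw.mul (hcE.mul (hc0.abs.add hc1.abs))).aestronglyMeasurable
    · refine Eventually.of_forall fun y => ?_
      rw [Real.norm_of_nonneg (mul_nonneg (w0 y) (by positivity))]
      exact hptw 1 one_pos y
  have be : (∫ y, wt K ρ y * (Real.exp (-(|y| / 4)) * (|ε y| + |deriv ε y|))) ≤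
      Real.sqrt (Hn K ρ ε) * Real.sqrt (2 * ∫ y : ℝ, Real.exp (-(|y| / 4)) ^ 2) := by
    refine amgm_opt (Real.sqrt_nonneg _) (Real.sqrt_nonneg _) fun a ha => ?_
    rw [Real.sq_sqrt (Hn_nonneg w0), Real.sq_sqrt (by positivity)]
    have h1 := integral_mono ie
      (((ih.const_mul a).add ((exp4_int.const_mul 2).div_const a)).div_const 2) (hptw a ha)
    refine h1.trans (le_of_eq ?_)
    rw [integral_div]
    have h2 : (∫ y, (a * (wt K ρ y * (deriv ε y ^ 2 + ε y ^ 2)) +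
        (2 * Real.exp (-(|y| / 4)) ^ 2) / a)) = a * Hn K ρ ε +
        (2 * ∫ y : ℝ, Real.exp (-(|y| / 4)) ^ 2) / a := by
      rw [integral_add (ih.const_mul a) ((exp4_int.const_mul 2).div_const a), integral_const_mul,
        integral_div, integral_const_mul]
      rfl
    rw [← h2]
    rfl
  -- sup bound
  obtain ⟨B, hB0, hB⟩ : ∃ B : ℝ, 0 ≤ B ∧ ∀ y, ε y ^ 2 ≤ B :=
    ⟨(∫ y, ε y ^ 2) + ∫ y, deriv ε y ^ 2, by positivity, fun y =>
      Pool.Agent.Helper26.KV.sup_sq_le (by exact_mod_cast contDiff_infty.1 hε.1 1) m0 m1 y⟩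
  have i6' : Integrable (fun y => wt K ρ y * ε y ^ 6) := by
    refine (i0.const_mul (B ^ 2)).mono' ((hcw.mul (hc0.pow 6)).aestronglyMeasurable)
      (Eventually.of_forall fun y => ?_)
    rw [Real.norm_of_nonneg (mul_nonneg (w0 y) (by positivity))]
    have h1 : ε y ^ 6 = (ε y ^ 2) ^ 2 * ε y ^ 2 := by ring
    have h2 : (ε y ^ 2) ^ 2 ≤ B ^ 2 := by
      have := hB y
      gcongr
    calc wt K ρ y * ε y ^ 6 ≤ 1 * ε y ^ 6 := mul_le_mul_of_nonneg_right (w1 y) (by positivity)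
      _ = (ε y ^ 2) ^ 2 * ε y ^ 2 := by rw [one_mul, h1]
      _ ≤ B ^ 2 * ε y ^ 2 := by gcongr
  have i2' : Integrable (fun y => wt K ρ y * ε y ^ 2) := by
    refine i0.mono' ((hcw.mul (hc0.pow 2)).aestronglyMeasurable) (Eventually.of_forall fun y => ?_)
    rw [Real.norm_of_nonneg (mul_nonneg (w0 y) (by positivity))]
    exact mul_le_of_le_one_left (by positivity) (w1 y)
  have i6 : Integrable (fun y => wt K ρ y * (ε y ^ 2 + ε y ^ 6)) := by
    refine (i2'.add i6').congr (Eventually.of_forall fun y => ?_)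
    simp only [Pi.add_apply]; ring
  have b6 : (∫ y, wt K ρ y * (ε y ^ 2 + ε y ^ 6)) ≤ 9 * Hn K ρ ε := by
    have e1 : (∫ y, wt K ρ y * (ε y ^ 2 + ε y ^ 6)) =
        (∫ y, wt K ρ y * ε y ^ 2) + ∫ y, wt K ρ y * ε y ^ 6 := by
      rw [← integral_add i2' i6']
      refine integral_congr_ae (Eventually.of_forall fun y => ?_)
      simp only; ring
    have e2 : (∫ y, wt K ρ y * ε y ^ 2) ≤ Hn K ρ ε := by
      refine integral_mono i2' ih fun y => ?_
      simp only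
      have : 0 ≤ wt K ρ y * deriv ε y ^ 2 := mul_nonneg (w0 y) (by positivity)
      linarith
    have hdw : ∀ y, |deriv (wt K ρ) y| ≤ wt K ρ y := by
      intro y
      rw [(hwd y).deriv, abs_of_pos (hph y).1]
      refine (hph y).2.1.trans ?_
      rw [div_le_iff₀ (by linarith)]
      nlinarith [w0 y]
    have hw1 : ContDiff ℝ 1 (wt K ρ) := by exact_mod_cast contDiff_infty.1 hwc 1
    have he2 : ContDiff ℝ 2 ε := by exact_mod_cast contDiff_infty.1 hε.1 2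
    have e3 := (hWGN (wt K ρ) 1 hw1 (fun y => (hw y).1) w1 hdw ε he2 m0 m1 m2).2.1
    have e4 : (∫ y, ε y ^ 2) ^ 2 ≤ 1 := by
      have : 0 ≤ ∫ y, ε y ^ 2 := by positivity
      nlinarith
    have e5 : 0 ≤ Hn K ρ ε := Hn_nonneg w0
    have e6 : 8 * (∫ y, ε y ^ 2) ^ 2 * (∫ y, wt K ρ y * (deriv ε y ^ 2 + ε y ^ 2)) ≤ 8 * Hn K ρ ε := by
      change 8 * (∫ y, ε y ^ 2) ^ 2 * Hn K ρ ε ≤ 8 * Hn K ρ ε
      nlinarith
    linarith
  exact ⟨hc0, hc1, hcw, i0, i1, w0, w1, ih, ie, be, i6, b6⟩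

end Pool.Agent.Helper3.KV
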